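import Pool.Agent.Helper32.NodeCase
import Pool.Agent.Helper32.BandModule

/-!
# A noetherian algebra which is neither generically tame nor generically wild

The algebra is a one-dimensional noetherian domain, regarded as an algebra over itself.
-/

set_option autoImplicit false

namespace Pool.Agent.Results.MP_4e4efc_al.NeitherTameNorWild

universe u

/-- `M` is indecomposable: it is nonzero and not the direct sum of two nonzero submodules. -/
def Indecomposable (k M : Type*) [Ring k] [AddCommGroup M] [Module k M] : Prop :=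
  Nontrivial M ∧ ∀ p q : Submodule k M, IsCompl p q → p = ⊥ ∨ q = ⊥

/-- `G` is generic of endolength `d`: it is indecomposable, not finitely generated, and its length
over its endomorphism ring is the natural number `d`. -/
def Generic (k G : Type*) [CommRing k] [AddCommGroup G] [Module k G] (d : ℕ) : Prop :=
  Indecomposable k G ∧ ¬ Module.Finite k G ∧ Module.length (Module.End k G) G = (d : ℕ∞)

open Pool.Agent.Helper32 Pool.Agent.Helper32.NodeRing

lemma s_not_mem_mm {i j : ℕ} (h : i ≠ j) :
    algebraMap A NodeRing.k (s j) ∉ mm i := by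
  intro hmem
  have h1 := res_eq_zero_of_mem hmem
  rw [res_algebraMap, coe_s, ev_sR_ne (Ne.symm h)] at h1
  exact sR_ne_zero j ((IsFractionRing.injective R K) (by rw [h1, map_zero]))

lemma quot_not_iso {i j : ℕ} (h : i ≠ j) :
    ¬ Nonempty ((NodeRing.k ⧸ mm i) ≃ₗ[NodeRing.k] (NodeRing.k ⧸ mm j)) := by
  rintro ⟨e⟩
  have h1 := LinearEquiv.annihilator_eq e
  rw [Ideal.annihilator_quotient, Ideal.annihilator_quotient] at h1
  apply s_not_mem_mm h
  rw [h1]
  exact Ideal.subset_span (Set.mem_insert _ _)

lemma quot_indec (i : ℕ) (p q : Submodule NodeRing.k (NodeRing.k ⧸ mm i)) (h : IsCompl p q) :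
    p = ⊥ ∨ q = ⊥ := by
  have : IsSimpleModule NodeRing.k (NodeRing.k ⧸ mm i) :=
    isSimpleModule_iff_isCoatom.2 (mm_isMaximal i).out
  rcases eq_bot_or_eq_top p with hp | hp
  · exact Or.inl hp
  · right
    have := h.inf_eq_bot
    rwa [hp, top_inf_eq] at this

lemma mm_ne_bot (i : ℕ) : mm i ≠ ⊥ := by
  intro h
  have h1 : algebraMap A NodeRing.k (s i) ∈ mm i := Ideal.subset_span (Set.mem_insert _ _)
  rw [h, Ideal.mem_bot] at h1
  exact s_ne_zero i (algebraMap_injective (by rw [h1, map_zero]))

/-- There is a noetherian domain of dimension one with infinitely many pairwise non-isomorphic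
indecomposable finitely generated modules and infinitely many pairwise non-isomorphic generic
modules of endolength two, such that the endomorphism ring of every generic module satisfies the
polynomial identity `[x_1, y_1] ... [x_r, y_r] = 0` for some `r`. -/
theorem result :
    ∃ (k : Type) (_ : CommRing k) (_ : IsDomain k) (_ : IsNoetherianRing k)
      (_ : Ring.DimensionLEOne k),
      ¬ IsField k ∧
      (∃ (M : ℕ → Type) (_ : ∀ i, AddCommGroup (M i)) (_ : ∀ i, Module k (M i)),
        (∀ i, Indecomposable k (M i) ∧ Module.Finite k (M i)) ∧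
        ∀ i j, i ≠ j → IsEmpty (M i ≃ₗ[k] M j)) ∧
      (∃ (G : ℕ → Type) (_ : ∀ i, AddCommGroup (G i)) (_ : ∀ i, Module k (G i)),
        (∀ i, Generic k (G i) 2) ∧
        ∀ i j, i ≠ j → IsEmpty (G i ≃ₗ[k] G j)) ∧
      ∀ (G : Type u) [AddCommGroup G] [Module k G] (d : ℕ), Generic k G d →
        ∃ r : ℕ, ∀ x y : Fin r → Module.End k G,
          (List.ofFn fun i => x i * y i - y i * x i).prod = 0 := by
  refine ⟨NodeRing.k, inferInstance, inferInstance, inferInstance, ⟨?_⟩, ?_, ?_, ?_, ?_⟩
  · intro P hP0 hP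
    obtain ⟨i, rfl⟩ := eq_mm_of_prime hP hP0
    exact mm_isMaximal i
  · intro h
    exact Ring.not_isField_iff_exists_ideal_bot_lt_and_lt_top.2
      ⟨mm 0, bot_lt_iff_ne_bot.2 (mm_ne_bot 0), lt_top_iff_ne_top.2 (mm_ne_top 0)⟩ h
  · refine ⟨fun i => NodeRing.k ⧸ mm i, fun _ => inferInstance, fun _ => inferInstance,
      fun i => ⟨⟨Ideal.Quotient.nontrivial_iff.2 (mm_ne_top i), quot_indec i⟩, inferInstance⟩,
      fun i j hij => ?_⟩
    exact not_nonempty_iff.1 (quot_not_iso hij)
  · refine ⟨fun i => Band i, fun _ => inferInstance, fun _ => inferInstance,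
      fun i => ⟨⟨inferInstance, band_indec i⟩, band_not_finite i, ?_⟩,
      fun i j hij => not_nonempty_iff.1 (band_not_iso hij)⟩
    rw [band_length]
    rfl
  · intro G _ _ d hG
    obtain ⟨⟨hne, hind⟩, hinf, hlen⟩ := hG
    obtain ⟨r, hr⟩ := Red.commutators_vanish hind hinf
      (by rw [hlen]; exact ENat.natCast_lt_top d)
    refine ⟨r, fun x y => ?_⟩
    have h1 := hr (List.ofFn fun i => (x i, y i)) (by simp)
    rw [List.map_ofFn] at h1
    exact h1

end Pool.Agent.Results.MP_4e4efc_al.NeitherTameNorWild
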